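import Pool.Agent.K1H73.SQB.Stm3
import Pool.Agent.K1H65.SQB.Box

/-!
# Project SQB (helper73), piece BOX3: the average of the singular series over the boxes, with
prescribed almost primes (adapted from `K1H65/SQB/Box.lean` of helper65)
-/

set_option autoImplicit false

namespace Pool.Agent.K1H24.SQB

open Finset Pool.Agent.Y862.SQ Pool.Agent.K1H73.SQB

theorem r2_le (H : Finset (ℕ × ℕ)) (p : ℕ) : r2 H p ≤ p := by
  unfold r2
  exact (card_filter_le _ _).trans (card_range p).le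

theorem fac_nonneg (H : Finset (ℕ × ℕ)) (p : ℕ) : 0 ≤ 1 - (r2 H p : ℝ) / p := by
  rcases Nat.eq_zero_or_pos p with h | h
  · subst h
    simp
  · have h1 : (r2 H p : ℝ) ≤ p := by exact_mod_cast r2_le H p
    have h2 : (0 : ℝ) < p := by exact_mod_cast h
    rw [sub_nonneg, div_le_one h2]
    exact h1

theorem VT2_nonneg (H : Finset (ℕ × ℕ)) (w y : ℕ) : 0 ≤ VT2 H w y :=
  prod_nonneg fun p _ => fac_nonneg H p

theorem VP_nonneg (P : Finset (ℕ × ℕ)) (y : ℕ) : 0 ≤ VP P y :=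
  prod_nonneg fun p _ => fac_nonneg P p

theorem Rn_ne {z z' : ℕ × ℕ} (h : z ≠ z') : Rn z z' ≠ 0 := by
  unfold Rn
  intro h0
  have e1 : (Nat.dist z.1 z'.1) ^ 4 = 0 := by omega
  have e2 : (Nat.dist z.2 z'.2) ^ 2 = 0 := by omega
  have e3 : Nat.dist z.1 z'.1 = 0 := by
    by_contra h
    exact absurd e1 (pow_ne_zero _ h)
  have e4 : Nat.dist z.2 z'.2 = 0 := by
    by_contra h
    exact absurd e2 (pow_ne_zero _ h)
  exact h (Prod.ext (Nat.eq_of_dist_eq_zero e3) (Nat.eq_of_dist_eq_zero e4))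

theorem Dd_one (K : ℕ) {w t : ℕ} (h0 : t ≠ 0) (h : t < w) : Dd K w t = 1 := by
  unfold Dd
  have e : t.primeFactors.filter (fun p => w < p) = ∅ := by
    rw [filter_eq_empty_iff]
    intro p hp hw
    have := Nat.le_of_dvd (Nat.pos_of_ne_zero h0) (Nat.dvd_of_mem_primeFactors hp)
    omega
  rw [e, prod_empty]

theorem prodF_nonneg (w y : ℕ) (H : Finset (ℕ × ℕ)) : 0 ≤ ∏ z ∈ H, Ff w y z.2 :=
  prod_nonneg fun _ _ => Pool.Agent.Y61.SQ.Ff_nonneg w y _

/-- the tail for `P` -/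
theorem tailP (h6 : S_TAIL2) {P : Finset (ℕ × ℕ)} {K w : ℕ} (y : ℕ) (hw : 4 * (K + P.card) + 2 ≤ w)
    (hR : ∀ x ∈ prs2 P, Rn x.1 x.2 < w) :
    V1t w y ^ P.card * (∏ z ∈ P, Ff w y z.2) * (1 - 4 * ((K + P.card : ℕ) : ℝ) ^ 2 / w) ≤ VT2 P w y ∧
    VT2 P w y ≤ V1t w y ^ P.card * (∏ z ∈ P, Ff w y z.2) := by
  obtain ⟨t1, t2⟩ := h6 P w y (by omega)
  have h0 : ∑ x ∈ prs2 P, (Dd ((1 + 4 * P.card) ^ (P.card ^ 2) - 1) w (Rn x.1 x.2) - 1) = 0 := by
    refine sum_eq_zero fun x hx => ?_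
    have hne : x.1 ≠ x.2 := (mem_filter.1 hx).2
    rw [Dd_one _ (Rn_ne hne) (hR x hx), sub_self]
  rw [h0, add_zero, mul_one] at t2
  refine ⟨le_trans (mul_le_mul_of_nonneg_left ?_ ?_) t1, t2⟩
  · have h1 : (P.card : ℝ) ≤ ((K + P.card : ℕ) : ℝ) := by exact_mod_cast Nat.le_add_left _ _
    have : 4 * (P.card : ℝ) ^ 2 / w ≤ 4 * ((K + P.card : ℕ) : ℝ) ^ 2 / w := by
      gcongr
    linarith
  · exact mul_nonneg (pow_nonneg (Pool.Agent.Y61.SQ.V1t_pos w y).le _) (prodF_nonneg w y P)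

/-- bounds for one family -/
theorem one (h4 : S_SPL3) (h6 : S_TAIL2) {k q K w y : ℕ} (a s : Fin k → ℕ) (P : Finset (ℕ × ℕ))
    (G : Fin k → Finset ℕ) (δ : ℝ) (hsq : Squarefree q) (hq0 : 0 < q) (hqw : q ≤ w) (hwy : w ≤ y)
    (hK : (uc s G).card = K) (hd : Disjoint P (uc s G)) (hwK : 4 * (K + P.card) + 2 ≤ w)
    (hδ : 4 * ((K + P.card : ℕ) : ℝ) ^ 2 / w ≤ δ) (hδ1 : δ ≤ 1 / 2)
    (hR : ∀ x ∈ prs2 P, Rn x.1 x.2 < w) :
    |DP q a s P G y - VT2 P w y * V1t w y ^ K * DP q a s P G w| ≤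
      VT2 P w y * V1t w y ^ K * ((2 * |∏ z ∈ uc s G, Ff w y z.2 - 1| +
        2 * ((∏ z ∈ uc s G, Ff w y z.2) * ∑ x ∈ prs2 (P ∪ uc s G),
          (Dd ((1 + 4 * (K + P.card)) ^ ((K + P.card) ^ 2) - 1) w (Rn x.1 x.2) - 1))) +
          2 * δ * DP q a s P G w) := by
  obtain ⟨s1, -, s2, s3, -⟩ := h4 k q w y a s P G hsq hq0 hqw hwy
  have hcard : (P ∪ uc s G).card = K + P.card := by
    rw [card_union_of_disjoint hd, hK, add_comm]
  obtain ⟨t1, t2⟩ := h6 (P ∪ uc s G) w y (by rw [hcard]; exact hwK)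
  obtain ⟨p1, p2⟩ := tailP h6 y hwK hR
  rw [hcard, prod_union hd] at t1 t2
  have hV := (Pool.Agent.Y61.SQ.V1t_pos w y).le
  have hFP := prodF_nonneg w y P
  have hFH := prodF_nonneg w y (uc s G)
  have hD0 : 0 ≤ ∑ x ∈ prs2 (P ∪ uc s G),
      (Dd ((1 + 4 * (K + P.card)) ^ ((K + P.card) ^ 2) - 1) w (Rn x.1 x.2) - 1) :=
    sum_nonneg fun z _ => Pool.Agent.Y61.SQ.Dd_ge _ _ _
  have hb0 := VT2_nonneg P w y
  have hu0 : 0 ≤ V1t w y ^ K := pow_nonneg hV K
  have hA0 : 0 ≤ V1t w y ^ P.card * (∏ z ∈ P, Ff w y z.2) := mul_nonneg (pow_nonneg hV _) hFP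
  have hρ0 : 0 ≤ 4 * ((K + P.card : ℕ) : ℝ) ^ 2 / w := by positivity
  have e0 : V1t w y ^ (K + P.card) * ((∏ z ∈ P, Ff w y z.2) * ∏ z ∈ uc s G, Ff w y z.2) =
      (V1t w y ^ P.card * (∏ z ∈ P, Ff w y z.2)) * (V1t w y ^ K * ∏ z ∈ uc s G, Ff w y z.2) := by
    rw [pow_add]
    ring
  rw [e0] at t1 t2
  rw [s1]
  generalize V1t w y ^ P.card * (∏ z ∈ P, Ff w y z.2) = A at *
  generalize ∏ z ∈ uc s G, Ff w y z.2 = h at *
  generalize ∑ x ∈ prs2 (P ∪ uc s G),
    (Dd ((1 + 4 * (K + P.card)) ^ ((K + P.card) ^ 2) - 1) w (Rn x.1 x.2) - 1) = D at *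
  generalize 4 * ((K + P.card : ℕ) : ℝ) ^ 2 / (w : ℝ) = ρ at *
  generalize V1t w y ^ K = u at *
  generalize VT2 P w y = b at *
  generalize VT2 (P ∪ uc s G) w y = T at *
  generalize DP q a s P G w = g at *
  have hδ0 : 0 ≤ δ := hρ0.trans hδ
  have l1 := Pool.Agent.Y61.SQ.low_aux (P := h) s2 s3
  have u1 := Pool.Agent.Y61.SQ.up_aux (P := h) s2 s3
  have hE := abs_nonneg (h - 1)
  have hbu : 0 ≤ b * u := mul_nonneg hb0 hu0
  have low : b * u * (g - |h - 1| - δ * g) ≤ g * T := by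
    have x1 : g * (A * (u * h) * (1 - ρ)) ≤ g * T := mul_le_mul_of_nonneg_left t1 s2
    refine le_trans ?_ x1
    have x2 : b * (u * h) ≤ A * (u * h) := mul_le_mul_of_nonneg_right p2 (mul_nonneg hu0 hFH)
    have x3 : b * (u * h) * (1 - δ) ≤ A * (u * h) * (1 - ρ) :=
      mul_le_mul x2 (by linarith) (by linarith) (mul_nonneg hA0 (mul_nonneg hu0 hFH))
    refine le_trans ?_ (mul_le_mul_of_nonneg_left x3 s2)
    have x4 : g * (b * (u * h) * (1 - δ)) = b * u * (g * h * (1 - δ)) := by ring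
    rw [x4]
    refine mul_le_mul_of_nonneg_left ?_ hbu
    have x5 : (g - |h - 1|) * (1 - δ) ≤ g * h * (1 - δ) :=
      mul_le_mul_of_nonneg_right l1 (by linarith)
    have x6 : 0 ≤ |h - 1| * δ := mul_nonneg hE hδ0
    linarith
  have up : g * T ≤ b * u * (g + 2 * δ * g + 2 * |h - 1| + 2 * (h * D)) := by
    have hAb : A ≤ b * (1 + 2 * δ) := by
      have y1 : A * (1 - δ) ≤ b :=
        le_trans (mul_le_mul_of_nonneg_left (by linarith) hA0) p1
      have y2 : A * (1 - δ) * (1 + 2 * δ) ≤ b * (1 + 2 * δ) :=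
        mul_le_mul_of_nonneg_right y1 (by linarith)
      have y3 : 0 ≤ A * (δ * (1 - 2 * δ)) := mul_nonneg hA0 (mul_nonneg hδ0 (by linarith))
      linarith
    have x1 : g * T ≤ g * (A * (u * h) * (1 + D)) := mul_le_mul_of_nonneg_left t2 s2
    refine x1.trans ?_
    have x2 : A * (u * h) * (1 + D) ≤ b * (1 + 2 * δ) * (u * h) * (1 + D) :=
      mul_le_mul_of_nonneg_right (mul_le_mul_of_nonneg_right hAb (mul_nonneg hu0 hFH)) (by linarith)
    refine (mul_le_mul_of_nonneg_left x2 s2).trans ?_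
    have x4 : g * (b * (1 + 2 * δ) * (u * h) * (1 + D)) =
        b * u * (g * h * (1 + 2 * δ) + (g * (h * D)) * (1 + 2 * δ)) := by ring
    rw [x4]
    refine mul_le_mul_of_nonneg_left ?_ hbu
    have hhD : 0 ≤ h * D := mul_nonneg hFH hD0
    have x5 : g * h * (1 + 2 * δ) ≤ (g + |h - 1|) * (1 + 2 * δ) :=
      mul_le_mul_of_nonneg_right u1 (by linarith)
    have x6 : g * (h * D) ≤ h * D := mul_le_of_le_one_left hhD s3
    have x7 : g * (h * D) * (1 + 2 * δ) ≤ h * D * 2 :=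
      mul_le_mul x6 (by linarith) (by linarith) hhD
    have x8 : |h - 1| * (1 + 2 * δ) ≤ |h - 1| * 2 := mul_le_mul_of_nonneg_left (by linarith) hE
    linarith
  have hhD : 0 ≤ h * D := mul_nonneg hFH hD0
  have hδg : 0 ≤ δ * g := mul_nonneg hδ0 s2
  rw [abs_le]
  constructor
  · have x3 : 0 ≤ b * u * (|h - 1| + 2 * (h * D) + δ * g) := mul_nonneg hbu (by linarith)
    linarith
  · linarith

theorem NP_den (h1 : S_DEN) (P : Finset (ℕ × ℕ)) (q a w s S U n : ℕ) (hq : Squarefree q)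
    (ha : a.Coprime q) (hw : q ≤ w) :
    |(NP P q a w s S U n : ℝ) - ((U - S : ℕ) : ℝ) * V1 w / (Nat.totient q : ℝ)| ≤
      (Pool.Agent.Y681.SQ.Mw w : ℝ) + P.card := by
  classical
  have h := abs_le.1 (Pool.Agent.K1H65.SQB.Nb_den h1 q a w S U (n + s) hq ha hw)
  have u1 : NP P q a w s S U n ≤ Nb q a w S U (n + s) := by
    unfold NP Nb blk
    refine card_le_card ?_
    intro x hx
    rw [mem_filter, mem_filter] at hx
    rw [mem_filter]
    exact ⟨hx.1.1, hx.2⟩
  have u2 : Nb q a w S U (n + s) ≤ NP P q a w s S U n + P.card := by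
    have e1 : Nb q a w S U (n + s) ≤ (((blk P s S U).filter
        (fun h => ok q a w ((n + s) ^ 2 + h))) ∪ P.image Prod.snd).card := by
      unfold Nb
      refine card_le_card ?_
      intro x hx
      rw [mem_filter] at hx
      rw [mem_union, mem_filter, mem_image]
      by_cases hP : (s, x) ∈ P
      · exact Or.inr ⟨(s, x), hP, rfl⟩
      · left
        unfold blk
        rw [mem_filter]
        exact ⟨⟨hx.1, hP⟩, hx.2⟩
    have e2 : NP P q a w s S U n = ((blk P s S U).filter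
        (fun h => ok q a w ((n + s) ^ 2 + h))).card := by
      unfold NP
      congr
    rw [e2]
    refine e1.trans ((card_union_le _ _).trans ?_)
    exact Nat.add_le_add_left card_image_le _
  have u1' : (NP P q a w s S U n : ℝ) ≤ Nb q a w S U (n + s) := by exact_mod_cast u1
  have u2' : (Nb q a w S U (n + s) : ℝ) ≤ NP P q a w s S U n + P.card := by exact_mod_cast u2
  have h0 : (0 : ℝ) ≤ P.card := Nat.cast_nonneg _
  rw [abs_le]
  constructor <;> linarith [h.1, h.2]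

theorem bxP_facts {k : ℕ} {P : Finset (ℕ × ℕ)} {κ s S U : Fin k → ℕ} {G : Fin k → Finset ℕ}
    (hG : G ∈ bxP P κ s S U) :
    ∀ i, G i ⊆ Ioc (S i) (U i) ∧ (∀ h ∈ G i, (s i, h) ∉ P) ∧ (G i).card = κ i := by
  classical
  intro i
  unfold bxP at hG
  rw [Fintype.mem_piFinset] at hG
  obtain ⟨g1, g2⟩ := mem_powersetCard.mp (hG i)
  refine ⟨fun x hx => ?_, fun x hx => ?_, g2⟩
  · have := g1 hx
    unfold blk at this
    rw [mem_filter] at this
    exact this.1
  · have := g1 hx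
    unfold blk at this
    rw [mem_filter] at this
    exact this.2

theorem bxP_sub {k : ℕ} {P : Finset (ℕ × ℕ)} {κ s S U : Fin k → ℕ} : bxP P κ s S U ⊆ bx κ S U := by
  intro G hG
  have h := bxP_facts hG
  unfold bx
  rw [Fintype.mem_piFinset]
  exact fun i => mem_powersetCard.2 ⟨(h i).1, (h i).2.2⟩

theorem mem_uc {k : ℕ} {s : Fin k → ℕ} {G : Fin k → Finset ℕ} {z : ℕ × ℕ} :
    z ∈ uc s G ↔ ∃ i, s i = z.1 ∧ z.2 ∈ G i := by
  unfold uc
  simp only [mem_biUnion, mem_univ, true_and, mem_image]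
  constructor
  · rintro ⟨i, h, h1, rfl⟩
    exact ⟨i, rfl, h1⟩
  · rintro ⟨i, h1, h2⟩
    exact ⟨i, z.2, h2, by rw [h1]⟩

theorem uc_card {k : ℕ} {P : Finset (ℕ × ℕ)} {κ s S U : Fin k → ℕ} {G : Fin k → Finset ℕ}
    (hG : G ∈ bxP P κ s S U) (hd : ∀ i j, i ≠ j → s i = s j → Disjoint (G i) (G j)) :
    (uc s G).card = ∑ i, κ i := by
  unfold uc
  rw [card_biUnion]
  · refine sum_congr rfl fun i _ => ?_
    rw [card_image_of_injective _ (fun x y h => (Prod.mk.inj h).2)]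
    exact (bxP_facts hG i).2.2
  · intro i _ j _ hij
    rw [Function.onFun, disjoint_left]
    intro z hz1 hz2
    rw [mem_image] at hz1 hz2
    obtain ⟨x, hx, rfl⟩ := hz1
    obtain ⟨y, hy, hxy⟩ := hz2
    rw [Prod.mk.injEq] at hxy
    obtain ⟨h1, rfl⟩ := hxy
    exact disjoint_left.1 (hd i j hij h1.symm) hx hy

theorem uc_disj {k : ℕ} {P : Finset (ℕ × ℕ)} {κ s S U : Fin k → ℕ} {G : Fin k → Finset ℕ}
    (hG : G ∈ bxP P κ s S U) : Disjoint P (uc s G) := by
  rw [disjoint_left]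
  intro z hz hz'
  rw [mem_uc] at hz'
  obtain ⟨i, h1, h2⟩ := hz'
  refine (bxP_facts hG i).2.1 z.2 h2 ?_
  rw [h1]
  exact hz

theorem DP_empty {k : ℕ} (q : ℕ) (a s : Fin k → ℕ) (P : Finset (ℕ × ℕ)) (y : ℕ) :
    DP q a s P (fun _ => ∅) y = VP P y := by
  classical
  unfold DP VP
  refine prod_congr rfl fun p _ => ?_
  have e : rP q a s P (fun _ => ∅) p = r2 P p := by
    unfold rP r2
    congr 1
    ext r
    rw [mem_filter, mem_filter]
    refine and_congr_right fun _ => ?_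
    unfold Qp Qc
    constructor
    · rintro (h | ⟨i, h, hh, -⟩)
      · exact h
      · exact absurd hh (notMem_empty h)
    · exact Or.inl
  rw [e]

theorem t_BOX3 (h1 : S_DEN) (h2 : S_EXM3) (h3 : S_ERR3) (h4 : S_SPL3) (h5 : S_MUL2)
    (h6 : S_TAIL2) : S_BOX3 := by
  classical
  intro k q a s κ P x0 η hsq hcop hadm hP1 hη
  have hq0 : 0 < q := Nat.pos_of_ne_zero hsq.ne_zero
  obtain ⟨K, hK⟩ : ∃ K, K = ∑ i, κ i := ⟨_, rfl⟩
  rcases Nat.eq_zero_or_pos K with hK0 | hK1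
  · refine ⟨0, 0, ?_⟩
    intro y T _ _ _ S U _ _
    have hκ : ∀ i, κ i = 0 := by
      intro i
      exact (Finset.sum_eq_zero_iff.mp (hK.symm.trans hK0)) i (mem_univ i)
    have hbx : bxP P κ s S U = {fun _ => ∅} := by
      unfold bxP
      ext G
      rw [Fintype.mem_piFinset, mem_singleton]
      simp only [hκ, powersetCard_zero, mem_singleton]
      exact ⟨fun h => funext h, fun h i => by rw [h]⟩
    have hmt : Pool.Agent.K1H73.SQB.mt κ (fun i => mu q y (S i) (U i)) = 1 := by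
      unfold Pool.Agent.K1H73.SQB.mt
      simp [hκ]
    rw [hbx, sum_singleton, DP_empty, hmt, mul_one, sub_self, abs_zero]
    exact mul_nonneg hη.le (VP_nonneg P y)
  · obtain ⟨X, hX⟩ : ∃ X : ℝ, X = max x0 0 := ⟨_, rfl⟩
    have hX0 : 0 ≤ X := by rw [hX]; exact le_max_right _ _
    obtain ⟨D, hD⟩ : ∃ D : ℝ, D = 2 ^ (k * K + 2) * X ^ K + 2 * (X ^ K + 1) := ⟨_, rfl⟩
    have hD0 : 0 < D := by rw [hD]; positivity
    obtain ⟨δ, hδ⟩ : ∃ δ : ℝ, δ = min (1 / 2) (η / (4 * D)) := ⟨_, rfl⟩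
    have hδ0 : 0 < δ := by rw [hδ]; exact lt_min (by norm_num) (by positivity)
    have hδ1 : δ ≤ 1 / 2 := by rw [hδ]; exact min_le_left _ _
    have hδD : δ * D ≤ η / 4 := by
      have : δ ≤ η / (4 * D) := by rw [hδ]; exact min_le_right _ _
      calc δ * D ≤ η / (4 * D) * D := mul_le_mul_of_nonneg_right this hD0.le
        _ = η / 4 := by field_simp
    obtain ⟨J, hJ1, hJ2⟩ : ∃ J : ℕ, (∀ i, s i ≤ J) ∧ ∀ z ∈ P, z.1 ≤ J := by
      refine ⟨univ.sup s + P.sup Prod.fst, fun i => ?_, fun z hz => ?_⟩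
      · exact (Finset.le_sup (f := s) (mem_univ i)).trans (Nat.le_add_right _ _)
      · exact (Finset.le_sup (f := Prod.fst) hz).trans (Nat.le_add_left _ _)
    obtain ⟨w, T1, hqw, hwK, hδw, hR, herr⟩ := h3 P hadm K J q δ hK1 hδ0
      (fun z hz => ⟨hJ2 z hz, hP1 z hz⟩)
    obtain ⟨ε, hε⟩ : ∃ ε : ℝ, ε = min 1 (η / 4) := ⟨_, rfl⟩
    have hε0 : 0 < ε := by rw [hε]; exact lt_min one_pos (by positivity)
    have hε1 : ε ≤ 1 := by rw [hε]; exact min_le_left _ _
    have hε2 : ε ≤ η / 4 := by rw [hε]; exact min_le_right _ _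
    obtain ⟨Cc, hCc⟩ : ∃ Cc : ℝ, Cc = (K : ℝ) * (X + 1) ^ K := ⟨_, rfl⟩
    have hKR : (0 : ℝ) < K := by exact_mod_cast hK1
    have hCc0 : 0 < Cc := by rw [hCc]; positivity
    obtain ⟨e, he⟩ : ∃ e : ℝ, e = min 1 (ε / Cc) := ⟨_, rfl⟩
    have he0 : 0 < e := by rw [he]; exact lt_min one_pos (by positivity)
    have he1 : e ≤ 1 := by rw [he]; exact min_le_left _ _
    have heC : Cc * e ≤ ε := by
      have : e ≤ ε / Cc := by rw [he]; exact min_le_right _ _
      calc Cc * e ≤ Cc * (ε / Cc) := mul_le_mul_of_nonneg_left this hCc0.le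
        _ = ε := by field_simp
    have hVw := Pool.Agent.Y61.SQ.V1_pos w
    have hMw : (0 : ℝ) < (Pool.Agent.Y681.SQ.Mw w : ℝ) := by
      exact_mod_cast Pool.Agent.Y681.SQ.Mw_pos w
    obtain ⟨M, hM⟩ : ∃ M : ℝ, M = (Pool.Agent.Y681.SQ.Mw w : ℝ) + P.card := ⟨_, rfl⟩
    have hM0 : 0 < M := by rw [hM]; positivity
    obtain ⟨T2, hT2⟩ := exists_nat_ge (X * (M + K) / (V1 w * e))
    refine ⟨w, T1 + T2 + 1, ?_⟩
    intro y T hy hT hTV S U hU hDj
    have hTpos : (0 : ℝ) < T := by exact_mod_cast (by omega : 0 < T)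
    have hVy := Pool.Agent.Y61.SQ.V1_pos y
    have hTX : T * V1 y ≤ X := hTV.trans (by rw [hX]; exact le_max_left _ _)
    obtain ⟨v, hv⟩ : ∃ v : ℝ, v = V1t w y := ⟨_, rfl⟩
    have hv0 : 0 < v := by rw [hv]; exact Pool.Agent.Y61.SQ.V1t_pos w y
    have hsplit : V1 y = V1 w * v := by rw [hv]; exact Pool.Agent.Y61.SQ.V1_split hy
    have hve : v * (M + K) ≤ e := by
      have e1 : X * (M + K) ≤ T * (V1 w * e) := by
        rw [div_le_iff₀ (by positivity)] at hT2
        refine hT2.trans (mul_le_mul_of_nonneg_right ?_ (by positivity))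
        exact_mod_cast (by omega : T2 ≤ T)
      have e2 : (T * V1 w) * (v * (M + K)) ≤ (T * V1 w) * e := by
        calc (T * V1 w) * (v * (M + K)) = (T * V1 y) * (M + K) := by rw [hsplit]; ring
          _ ≤ X * (M + K) := mul_le_mul_of_nonneg_right hTX (by positivity)
          _ ≤ _ := by linarith
      exact le_of_mul_le_mul_left e2 (by positivity)
    have hφ1 : (1 : ℝ) ≤ (Nat.totient q : ℝ) := by
      exact_mod_cast Nat.totient_pos.mpr hq0
    have hmu0 : ∀ i, 0 ≤ mu q y (S i) (U i) := fun i => by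
      unfold mu
      positivity
    have hmuX : ∀ i, mu q y (S i) (U i) ≤ X := fun i => by
      unfold mu
      have e1 : ((U i - S i : ℕ) : ℝ) ≤ T := by
        have := hU i
        exact_mod_cast (by omega : U i - S i ≤ T)
      calc ((U i - S i : ℕ) : ℝ) * V1 y / (Nat.totient q : ℝ) ≤ ((U i - S i : ℕ) : ℝ) * V1 y :=
            div_le_self (by positivity) hφ1
        _ ≤ T * V1 y := mul_le_mul_of_nonneg_right e1 hVy.le
        _ ≤ X := hTX
    obtain ⟨m, hm⟩ : ∃ m : ℝ, m = Pool.Agent.K1H73.SQB.mt κ (fun i => mu q y (S i) (U i)) :=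
      ⟨_, rfl⟩
    have hmX : m ≤ X ^ K := by
      rw [hm, hK, ← prod_pow_eq_pow_sum]
      unfold Pool.Agent.K1H73.SQB.mt
      refine prod_le_prod (fun i _ => ?_) fun i _ => ?_
      · have := hmu0 i
        positivity
      · have h7 : (1 : ℝ) ≤ ((κ i).factorial : ℝ) := by
          exact_mod_cast Nat.one_le_iff_ne_zero.mpr (Nat.factorial_ne_zero _)
        have h8 := hmu0 i
        exact (div_le_self (by positivity) h7).trans (pow_le_pow_left₀ h8 (hmuX i) _)
    obtain ⟨Sg, hSg⟩ : ∃ Sg : ℝ, Sg = ∑ G ∈ bxP P κ s S U, DP q a s P G w := ⟨_, rfl⟩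
    obtain ⟨W, hW⟩ : ∃ W : ℝ, W = VP P w := ⟨_, rfl⟩
    have hW0 : 0 ≤ W := by rw [hW]; exact VP_nonneg P w
    obtain ⟨b, hb⟩ : ∃ b : ℝ, b = VT2 P w y := ⟨_, rfl⟩
    have hb0 : 0 ≤ b := by rw [hb]; exact VT2_nonneg P w y
    have hWb : VP P y = W * b := by
      rw [hW, hb]
      exact (h4 k q w y a s P (fun _ => ∅) hsq hq0 hqw hy).2.1
    -- the main term
    have hA : |v ^ K * Sg - W * m| ≤ ε * W := by
      obtain ⟨x0', x1⟩ := h2 k q w a s κ S U P
      rw [← hSg] at x1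
      rw [← hW] at x0'
      have x2 : ∀ n : ℕ, |v ^ K * ∏ i, ((NP P q (a i) w (s i) (S i) (U i) n).choose (κ i) : ℝ) - m| ≤
          ε := by
        intro n
        have x3 := Pool.Agent.K1H65.SQB.comb κ (fun i => NP P q (a i) w (s i) (S i) (U i) n)
          (fun i => mu q y (S i) (U i)) v X e hX0 he0.le he1 hmu0 hmuX ?_
        · rw [← hK, ← hm, ← hCc] at x3
          exact x3.trans heC
        · intro i j hj
          have hjK : j ≤ K := by
            have : κ i ≤ ∑ i, κ i := single_le_sum (fun _ _ => Nat.zero_le _) (mem_univ i)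
            omega
          have hjR : (j : ℝ) ≤ K := by exact_mod_cast hjK
          have y1 := abs_le.mp (NP_den h1 P q (a i) w (s i) (S i) (U i) n hsq (hcop i) hqw)
          rw [← hM] at y1
          obtain ⟨N, hN⟩ : ∃ N, N = NP P q (a i) w (s i) (S i) (U i) n := ⟨_, rfl⟩
          rw [← hN] at y1 ⊢
          have y2 : mu q y (S i) (U i) = v * (((U i - S i : ℕ) : ℝ) * V1 w / (Nat.totient q : ℝ)) := by
            unfold mu
            rw [hsplit]
            ring
          have y3 := hmu0 i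
          rw [y2] at y3 ⊢
          obtain ⟨z, hz⟩ : ∃ z : ℝ, z = ((U i - S i : ℕ) : ℝ) * V1 w / (Nat.totient q : ℝ) := ⟨_, rfl⟩
          rw [← hz] at y1 y3 ⊢
          have y4 : 0 ≤ z := by
            by_contra hneg
            push Not at hneg
            have := mul_neg_of_pos_of_neg hv0 hneg
            linarith
          have y5 : |((N - j : ℕ) : ℝ) - z| ≤ M + K := by
            rw [abs_le]
            rcases le_or_gt j N with hjN | hjN
            · rw [Nat.cast_sub hjN]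
              have : (0 : ℝ) ≤ j := Nat.cast_nonneg j
              constructor <;> linarith [y1.1, y1.2]
            · have : N - j = 0 := by omega
              rw [this, Nat.cast_zero]
              have h9 : (N : ℝ) ≤ j := by exact_mod_cast hjN.le
              constructor <;> linarith [y1.1, y1.2]
          have y6 : v * ((N - j : ℕ) : ℝ) - v * z = v * (((N - j : ℕ) : ℝ) - z) := by ring
          rw [y6, abs_mul, abs_of_pos hv0]
          exact (mul_le_mul_of_nonneg_left y5 hv0.le).trans hve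
      have x4 : (Pool.Agent.Y681.SQ.Mw w : ℝ) * (v ^ K * Sg - W * m) =
          ∑ n ∈ (range (Pool.Agent.Y681.SQ.Mw w)).filter (fun n => gd P w n),
            (v ^ K * ∏ i, ((NP P q (a i) w (s i) (S i) (U i) n).choose (κ i) : ℝ) - m) := by
        rw [sum_sub_distrib, ← mul_sum, ← x1, sum_const, nsmul_eq_mul]
        have : (((range (Pool.Agent.Y681.SQ.Mw w)).filter (fun n => gd P w n)).card : ℝ) =
            (Pool.Agent.Y681.SQ.Mw w : ℝ) * W := x0'.symm
        rw [this]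
        ring
      have x5 : (Pool.Agent.Y681.SQ.Mw w : ℝ) * |v ^ K * Sg - W * m| ≤
          (Pool.Agent.Y681.SQ.Mw w : ℝ) * (ε * W) := by
        calc (Pool.Agent.Y681.SQ.Mw w : ℝ) * |v ^ K * Sg - W * m|
            = |(Pool.Agent.Y681.SQ.Mw w : ℝ) * (v ^ K * Sg - W * m)| := by
              rw [abs_mul, abs_of_pos hMw]
          _ ≤ ∑ n ∈ (range (Pool.Agent.Y681.SQ.Mw w)).filter (fun n => gd P w n),
            |v ^ K * ∏ i, ((NP P q (a i) w (s i) (S i) (U i) n).choose (κ i) : ℝ) - m| := by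
              rw [x4]
              exact abs_sum_le_sum_abs _ _
          _ ≤ ∑ n ∈ (range (Pool.Agent.Y681.SQ.Mw w)).filter (fun n => gd P w n), ε :=
              sum_le_sum fun n _ => x2 n
          _ = _ := by
              rw [sum_const, nsmul_eq_mul]
              have : (((range (Pool.Agent.Y681.SQ.Mw w)).filter (fun n => gd P w n)).card : ℝ) =
                  (Pool.Agent.Y681.SQ.Mw w : ℝ) * W := x0'.symm
              rw [this]
              ring
      exact le_of_mul_le_mul_left x5 hMw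
    -- the error
    obtain ⟨f, hf⟩ : ∃ f : Finset (ℕ × ℕ) → ℝ, f = fun H => 2 * |∏ z ∈ H, Ff w y z.2 - 1| +
      2 * (if Disjoint P H then (∏ z ∈ H, Ff w y z.2) * ∑ x ∈ prs2 (P ∪ H),
        (Dd ((1 + 4 * (K + P.card)) ^ ((K + P.card) ^ 2) - 1) w (Rn x.1 x.2) - 1) else 0) :=
      ⟨_, rfl⟩
    have hf0 : ∀ H, 0 ≤ f H := by
      intro H
      rw [hf]
      refine add_nonneg (mul_nonneg (by norm_num) (abs_nonneg _)) (mul_nonneg (by norm_num) ?_)
      split_ifs
      · exact mul_nonneg (prodF_nonneg w y H) (sum_nonneg fun z _ => Pool.Agent.Y61.SQ.Dd_ge _ _ _)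
      · exact le_rfl
    have hfs : ∑ H ∈ powersetCard K (EE J T), f H ≤ 4 * (δ * (W * (T * V1 w) ^ K)) := by
      obtain ⟨z1, z2⟩ := herr T (by omega) y hy
      rw [sum_filter] at z2
      rw [← hW] at z1 z2
      rw [hf, sum_add_distrib, ← mul_sum, ← mul_sum]
      linarith
    have hmul := h5 k J T s κ S U f hf0 hJ1 hU
    rw [← hK] at hmul
    have hB : |∑ G ∈ bxP P κ s S U, DP q a s P G y - b * v ^ K * Sg| ≤
        W * b * (2 ^ (k * K + 2) * δ * X ^ K) + 2 * δ * (b * v ^ K * Sg) := by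
      have z1 : ∀ G ∈ bxP P κ s S U, |DP q a s P G y - b * v ^ K * DP q a s P G w| ≤
          (if (∀ i j, i ≠ j → s i = s j → Disjoint (G i) (G j)) then b * v ^ K * f (uc s G) else 0) +
            2 * δ * (b * v ^ K * DP q a s P G w) := by
        intro G hG
        split_ifs with hdis
        · have z2 := one h4 h6 a s P G δ hsq hq0 hqw hy (K := K) ((uc_card hG hdis).trans hK.symm)
            (uc_disj hG) hwK hδw hδ1 hR
          rw [← hv, ← hb] at z2
          refine z2.trans (le_of_eq ?_)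
          rw [hf]
          simp only [if_pos (uc_disj hG)]
          ring
        · push Not at hdis
          obtain ⟨i, j, hij, hs, hnd⟩ := hdis
          obtain ⟨s1, -, s2, s3, s4⟩ := h4 k q w y a s P G hsq hq0 hqw hy
          have z3 : a i % q ≠ a j % q := by
            rcases hDj i j hij with h | h | h
            · exact absurd hs h
            · exact h
            · exact absurd (disjoint_of_subset_left (bxP_facts hG i).1
                (disjoint_of_subset_right (bxP_facts hG j).1 h)) hnd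
          have z4 := s4 i j hs z3 hnd
          rw [s1, z4]
          simp
      have z5 : |∑ G ∈ bxP P κ s S U, DP q a s P G y - b * v ^ K * Sg| ≤
          ∑ G ∈ bxP P κ s S U, |DP q a s P G y - b * v ^ K * DP q a s P G w| := by
        rw [hSg, mul_sum, ← sum_sub_distrib]
        exact abs_sum_le_sum_abs _ _
      refine z5.trans ((sum_le_sum z1).trans ?_)
      rw [sum_add_distrib, ← mul_sum, ← mul_sum, ← hSg, ← sum_filter, ← mul_sum]
      refine add_le_add ?_ le_rfl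
      have z6 : ∑ G ∈ (bxP P κ s S U).filter
            (fun G => ∀ i j, i ≠ j → s i = s j → Disjoint (G i) (G j)), f (uc s G) ≤
          ∑ G ∈ (bx κ S U).filter
            (fun G => ∀ i j, i ≠ j → s i = s j → Disjoint (G i) (G j)), f (uc s G) :=
        sum_le_sum_of_subset_of_nonneg (filter_subset_filter _ bxP_sub) fun G _ _ => hf0 _
      calc b * v ^ K * ∑ G ∈ (bxP P κ s S U).filter
            (fun G => ∀ i j, i ≠ j → s i = s j → Disjoint (G i) (G j)), f (uc s G)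
          ≤ b * v ^ K * (2 ^ (k * K) * (4 * (δ * (W * (T * V1 w) ^ K)))) := by
            refine mul_le_mul_of_nonneg_left (z6.trans (le_trans ?_
              (mul_le_mul_of_nonneg_left hfs (by positivity)))) (by positivity)
            convert hmul using 3
        _ = W * b * (2 ^ (k * K + 2) * δ * (T * V1 y) ^ K) := by
            rw [hsplit]
            ring
        _ ≤ W * b * (2 ^ (k * K + 2) * δ * X ^ K) :=
            mul_le_mul_of_nonneg_left (mul_le_mul_of_nonneg_left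
              (pow_le_pow_left₀ (by positivity) hTX _) (by positivity)) (mul_nonneg hW0 hb0)
    -- conclusion
    rw [← hm, hWb]
    have hA' : |b * v ^ K * Sg - W * b * m| ≤ ε * (W * b) := by
      have e1 : b * v ^ K * Sg - W * b * m = b * (v ^ K * Sg - W * m) := by ring
      rw [e1, abs_mul, abs_of_nonneg hb0]
      calc b * |v ^ K * Sg - W * m| ≤ b * (ε * W) := mul_le_mul_of_nonneg_left hA hb0
        _ = ε * (W * b) := by ring
    obtain ⟨R, hR'⟩ : ∃ R : ℝ, R = b * v ^ K * Sg := ⟨_, rfl⟩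
    rw [← hR'] at hA' hB
    obtain ⟨Y, hY⟩ : ∃ Y : ℝ, Y = W * b := ⟨_, rfl⟩
    have hY0 : 0 ≤ Y := by rw [hY]; exact mul_nonneg hW0 hb0
    rw [← hY] at hA' hB ⊢
    have w1 := abs_le.mp hA'
    have w2 := abs_le.mp hB
    have w0 : Y * m ≤ Y * X ^ K := mul_le_mul_of_nonneg_left hmX hY0
    have w3 : R ≤ Y * (X ^ K + 1) := by
      have : ε * Y ≤ 1 * Y := mul_le_mul_of_nonneg_right hε1 hY0
      linarith
    have w4 : 2 * δ * R ≤ 2 * δ * (Y * (X ^ K + 1)) := mul_le_mul_of_nonneg_left w3 (by positivity)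
    have w5 : Y * (2 ^ (k * K + 2) * δ * X ^ K) + 2 * δ * (Y * (X ^ K + 1)) = Y * (δ * D) := by
      rw [hD]
      ring
    have w6 : Y * (δ * D) ≤ Y * (η / 4) := mul_le_mul_of_nonneg_left hδD hY0
    have w7 : ε * Y ≤ η / 4 * Y := mul_le_mul_of_nonneg_right hε2 hY0
    have w8 : 0 ≤ η * Y := mul_nonneg hη.le hY0
    rw [abs_le]
    constructor <;> linarith

end Pool.Agent.K1H24.SQB
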